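import Pool.Agent.H57.KuB

set_option autoImplicit false

namespace Pool.Agent.Results.MP_f7d510_lc.FromDiamondPlus

open Cardinal Order Set Pool.Agent.H57.Ku

/-- A `κ`-Aronszajn tree exists. -/
def HasAronszajn (κ : Cardinal.{0}) : Prop :=
  ∃ (U : Type) (_ : PartialOrder U), KTree κ.ord.ToType U κ ∧ IsEmpty (Br κ.ord.ToType U)

/-- A strong `κ`-Kurepa tree exists. -/
def HasStrongKurepa (κ : Cardinal.{0}) : Prop :=
  ∃ (T : Type) (_ : PartialOrder T), KTree κ.ord.ToType T κ ∧ succ κ ≤ #(Br κ.ord.ToType T) ∧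
    ∃ F : Br κ.ord.ToType T → κ.ord.ToType → Bool,
      @Continuous _ _ (coneBr κ.ord.ToType T) (cone2 κ.ord.ToType) F ∧ F.Surjective

theorem strong (l : Cardinal.{0}) (hl : ℵ₀ ≤ l) (hD : DiamondPlus (succ l).ord.ToType (succ l))
    (hA : HasAronszajn (succ l)) : HasStrongKurepa (succ l) := by
  obtain ⟨U, _, hU, hB⟩ := hA
  obtain ⟨T, i, h1, F, h2, h3⟩ := main hl (H82.LadA.reg_toType (isRegular_succ hl)) hD hU hB
  refine ⟨T, i, h1, (succ_le_of_lt (cantor _)).trans (le_of_eq_of_le ?_ (mk_le_of_surjective h3)),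
    F, h2, h3⟩
  simp

theorem result :
    (∀ l : Cardinal.{0}, ℵ₀ ≤ l → DiamondPlus (succ l).ord.ToType (succ l) →
      HasAronszajn (succ l) → HasStrongKurepa (succ l)) ∧
    ((∀ l : Cardinal.{0}, ℵ₀ ≤ l → DiamondPlus (succ l).ord.ToType (succ l) ∧
      HasAronszajn (succ l)) → ∃ l : Cardinal.{0}, l.IsSingular ∧ HasStrongKurepa (succ l)) :=
  ⟨strong, fun h => ⟨_, isSingular_aleph_omega0, strong _ isSingular_aleph_omega0.aleph0_le
    (h _ isSingular_aleph_omega0.aleph0_le).1 (h _ isSingular_aleph_omega0.aleph0_le).2⟩⟩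

end Pool.Agent.Results.MP_f7d510_lc.FromDiamondPlus
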